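import Pool.Agent.H37.SignRetrieval

open MeasureTheory Pool.Agent.H37.SignRetrieval

namespace Pool.Agent.Results.MP_ec7a01_an.ExponentialTail

/-- Let `g ∈ L²(ℝ, ℝ)` vanish to the left of `s₀` and be equal to `C e^{-at}` to the right of `t₀`,
and let `c, d` be linearly dependent over `ℚ`. Then no set `Λ` whose frequency coordinates lie in
`ω₀ + cℤ + dℤ` allows sign retrieval for `g`. This applies to every shifted lattice `z + L ℤ²` whose
second row is `(c, d)`. -/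
theorem result (g : ℝ → ℝ) (hg : MemLp g 2 volume) (s₀ t₀ a C : ℝ)
    (hleft : ∀ᵐ t : ℝ, t < s₀ → g t = 0)
    (hright : ∀ᵐ t : ℝ, t₀ < t → g t = C * Real.exp (-a * t)) (ω₀ c d : ℝ)
    (hcd : ¬ LinearIndependent ℚ ![c, d]) (Λ : Set (ℝ × ℝ))
    (hΛ : ∀ p ∈ Λ, ∃ m n : ℤ, p.2 = ω₀ + (c * m + d * n)) :
    ¬ AllowsSignRetrieval g Λ := by
  obtain ⟨m, n, hmn, h⟩ := int_of_dependent hcd
  obtain ⟨β, hβ, hl⟩ := exists_step c d m n hmn h
  refine not_allows_of_exp g hg s₀ t₀ a C hleft hright ω₀ β hβ _ ?_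
  intro p hp
  obtain ⟨j, k, hjk⟩ := hΛ p hp
  obtain ⟨l, hl⟩ := hl j k
  exact ⟨l, by rw [hjk, ← hl]⟩

end Pool.Agent.Results.MP_ec7a01_an.ExponentialTail
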