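import Pool.Agent.H37.SignRetrieval

open MeasureTheory Pool.Agent.H37.SignRetrieval

namespace Pool.Agent.Results.MP_ec7a01_an.GaussianHyperbolas

/-- Let `s > 0` and let the window be the Gaussian `e^{-πst²}`. Sign retrieval fails on every subset
of `{(x, ω) : p (s x² - ω²/s) + q x + r ∈ ℤ}`, where `|p| < 1` and `(p, q) ≠ (0, 0)`. In particular,
for `σ, τ > 0` with `sστ > 1`, it fails on the lattice generated by `(σ/2, -sσ/2)` and
`(τ/2, sτ/2)`, both rows of which are linearly independent over `ℚ` when `τ/σ` is irrational. -/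
theorem result (s : ℝ) (hs : 0 < s) :
    (∀ p q r : ℝ, |p| < 1 → (p ≠ 0 ∨ q ≠ 0) → ∀ Λ : Set (ℝ × ℝ),
      (∀ z ∈ Λ, ∃ k : ℤ, p * (s * z.1 ^ 2 - z.2 ^ 2 / s) + q * z.1 + r = k) →
      ¬ AllowsSignRetrieval (gauss s) Λ) ∧
    (∀ σ τ : ℝ, 0 < σ → 0 < τ → 1 < s * σ * τ →
      (Irrational (τ / σ) → LinearIndependent ℚ ![σ / 2, τ / 2] ∧
        LinearIndependent ℚ ![-(s * σ / 2), s * τ / 2]) ∧
      ¬ AllowsSignRetrieval (gauss s)
        (shiftedLattice (0, 0) (σ / 2) (τ / 2) (-(s * σ / 2)) (s * τ / 2))) := by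
  refine ⟨fun p q r hp hpq Λ hΛ => not_allows_gauss s hs p q r hp hpq Λ hΛ, ?_⟩
  intro σ τ hσ hτ hst
  refine ⟨fun hirr => rows_independent s σ τ hs hσ hirr, ?_⟩
  refine not_allows_gauss_lattice s hs _ _ _ _ (s * σ * τ) hst 0 0 1 ?_ ?_ ?_
  · field_simp; ring
  · field_simp; ring
  · field_simp; ring

end Pool.Agent.Results.MP_ec7a01_an.GaussianHyperbolas
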