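import Pool.Agent.H37.SignRetrieval

open MeasureTheory Pool.Agent.H37.SignRetrieval

namespace Pool.Agent.Results.MP_ec7a01_an.OneRow

/-- Let `g ∈ L²(ℝ, ℝ)` be any real window and let `a, b` be linearly dependent over `ℚ`. Then no set
`Λ` whose time coordinates lie in `x₀ + aℤ + bℤ` allows sign retrieval for `g`. This applies to
every shifted lattice `z + L ℤ²`, `L = [[a, b], [c, d]]`: nothing is asked of the second row. -/
theorem result (g : ℝ → ℝ) (hg : MemLp g 2 volume) (x₀ a b : ℝ)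
    (hab : ¬ LinearIndependent ℚ ![a, b]) (Λ : Set (ℝ × ℝ))
    (hΛ : ∀ p ∈ Λ, ∃ m n : ℤ, p.1 = x₀ + (a * m + b * n)) :
    ¬ AllowsSignRetrieval g Λ := by
  obtain ⟨m, n, hmn, h⟩ := int_of_dependent hab
  obtain ⟨α, hα, hl⟩ := exists_step a b m n hmn h
  refine not_allows_of_lines g hg x₀ α hα _ ?_
  intro p hp
  obtain ⟨j, k, hjk⟩ := hΛ p hp
  obtain ⟨l, hl⟩ := hl j k
  exact ⟨l, by rw [hjk, ← hl]⟩

end Pool.Agent.Results.MP_ec7a01_an.OneRow
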